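import Pool.Agent.Helper98K9.CP.All

set_option autoImplicit false

/-!
# MP_b6f052_pr: the uniqueness thresholds of `T_d × ℤ` and `T_d × ℕ` agree

All definitions of the statement are in `Pool.Agent.Helper98K9.CP.Perc`:

* `line`, `halfLine`: the two-sided and the one-sided path; `T.boxProd line` is the Cartesian
  product (Mathlib);
* `perc G p`: Bernoulli bond percolation on `G`, a measure on `G.edgeSet → Bool`;
* `opn G ω`: the graph of the open edges;
* `pu G`: the infimum of the `p ≤ 1` for which there is almost surely exactly one infinite open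
  cluster.
-/

namespace Pool.Agent.Results.MP_b6f052_pr.EqualUniquenessThresholds

open Pool.Agent.Helper98K9.CP

/-- The `d`-regular tree exists: the vertices are the pairs `(k, m)` in `ℤ × ℕ`, the neighbours
of `(k, m)` are `(k + 1, m / (d - 1))` and the vertices `(k - 1, n)` with `n / (d - 1) = m`. -/
theorem exists_tree (d : ℕ) (hd : 3 ≤ d) :
    (tree d).IsTree ∧ ∀ x, ((tree d).neighborSet x).ncard = d :=
  tree_leaf d hd

/-- For every `d ≥ 3` and every `d`-regular tree `T` the uniqueness thresholds of `T × ℤ` and of
`T × ℕ` are equal. -/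
theorem result (d : ℕ) (hd : 3 ≤ d) (V : Type) (T : SimpleGraph V) (hT : T.IsTree)
    (hdeg : ∀ x, (T.neighborSet x).ncard = d) :
    pu (T.boxProd line) = pu (T.boxProd halfLine) :=
  pu_final d hd V T hT hdeg

end Pool.Agent.Results.MP_b6f052_pr.EqualUniquenessThresholds
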